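import Pool.Agent.Y784.FC.D

/-!
The pencil of lines of the Fermat cubic over a finite field: the Euler product modulo three.
-/

set_option autoImplicit false
set_option maxHeartbeats 1000000

open Polynomial

namespace Pool.Agent.Y784.FC

open Pool.Agent.W313.Hyp Pool.Agent.W343.BSD Pool.Agent.Y711

section global

variable {F : Type} [Field F] [Finite F]

/-- the pencil of lines -/
noncomputable def G1 (α β : F) (P : MI F) : (RF P)[X] :=
  Phi (algebraMap F (RF P) α) (algebraMap F (RF P) β) (AdjoinRoot.root P.1)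

open Classical in
/-- the projection to the `X`-line, without the point `α` -/
noncomputable def G2 (α : F) (P : MI F) : (RF P)[X] :=
  if P = mi α then 1 else X ^ 3 - C (1 - AdjoinRoot.root P.1 ^ 3)

omit [Finite F] in
theorem alg_ne {P : MI F} {c : F} (hc : c ≠ 0) : algebraMap F (RF P) c ≠ 0 := by
  rw [Ne, map_eq_zero]
  exact hc

omit [Finite F] in
theorem hf_eq (α β : F) (P : MI F) : AdjoinRoot.mk P.1 (hF α β) =
    hf (algebraMap F (RF P) α) (algebraMap F (RF P) β) (AdjoinRoot.root P.1) := by
  have hC : ∀ c : F, AdjoinRoot.mk P.1 (C c) = algebraMap F (RF P) c := fun c => rfl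
  unfold hF hf
  simp only [map_mul, map_add, map_sub, map_pow, map_one, map_neg, map_ofNat, hC,
    AdjoinRoot.mk_X]

omit [Finite F] in
theorem chi_eq (h : F[X]) (P : MI F) : chi h P.1 = qc (AdjoinRoot.mk P.1 h) := by
  classical
  unfold chi qc
  have h1 : P.1 ∣ h ↔ AdjoinRoot.mk P.1 h = 0 := AdjoinRoot.mk_eq_zero.symm
  have h2 : (∃ s : F[X], P.1 ∣ h - s ^ 2) ↔ IsSquare (AdjoinRoot.mk P.1 h) := by
    constructor
    · rintro ⟨s, hs⟩
      rw [← AdjoinRoot.mk_eq_zero, map_sub, map_pow, sub_eq_zero] at hs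
      exact ⟨AdjoinRoot.mk P.1 s, by rw [hs, sq]⟩
    · rintro ⟨r, hr⟩
      obtain ⟨s, rfl⟩ := AdjoinRoot.mk_surjective r
      refine ⟨s, ?_⟩
      rw [← AdjoinRoot.mk_eq_zero, map_sub, map_pow, hr, sq, sub_self]
  by_cases a : P.1 ∣ h
  · rw [if_pos a, if_pos (h1.1 a)]
  · rw [if_neg a, if_neg (fun h => a (h1.2 h))]
    by_cases b : ∃ s : F[X], P.1 ∣ h - s ^ 2
    · rw [if_pos b, if_pos (h2.1 b)]
    · rw [if_neg b, if_neg (fun h => b (h2.2 h))]

theorem EP_G1_eq_G2 (h3 : (3 : F) ≠ 0) (α β : F) (h0 : α ^ 3 + β ^ 3 ≠ 1) (h1 : α ^ 3 + β ^ 3 ≠ 0)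
    (A : Type) [CommRing A] : EP (G1 α β) A = EP (G2 α) A := by
  classical
  refine EP_congr _ _ ?_ ?_ ?_ A
  · intro P
    have h3' : (3 : RF P) ≠ 0 := by
      have := alg_ne (P := P) h3
      rwa [map_ofNat] at this
    refine Phi_ne _ _ _ h3' ?_
    rw [← map_pow, ← map_pow, ← map_add]
    exact alg_ne h1
  · intro P
    unfold G2
    split_ifs
    · exact one_ne_zero
    · exact kummer_ne _
  · intro L _ _ _
    set a := algebraMap F L α with ha
    set b := algebraMap F L β with hb
    have hab : a ^ 3 + b ^ 3 ≠ 1 := by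
      intro h
      apply h0
      apply (algebraMap F L).injective
      rw [map_add, map_pow, map_pow, map_one]
      exact h
    refine ⟨fun x s => s ^ 3 + (b + x * (s - a)) ^ 3 - 1 = 0, fun X Y => X ≠ a ∧ Y ^ 3 - (1 - X ^ 3) = 0,
      ?_, ?_, ?_⟩
    · intro P x hx s
      have : eval₂ (sg hx) s (G1 α β P) = s ^ 3 + (b + x * (s - a)) ^ 3 - 1 := by
        unfold G1 Phi
        simp only [eval₂_sub, eval₂_add, eval₂_pow, eval₂_mul, eval₂_X, eval₂_C, eval₂_one, sg_root,
          sg_of, ha, hb]
      rw [this]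
    · intro P x hx s
      by_cases hP : P = mi α
      · subst hP
        have hxa : x = a := by
          have : aeval x (X - C α : F[X]) = 0 := hx
          rw [map_sub, aeval_X, aeval_C, sub_eq_zero] at this
          exact this
        unfold G2
        rw [if_pos rfl, eval₂_one]
        simp [hxa]
      · have hxa : x ≠ a := by
          intro h
          apply hP
          have h5 : algebraMap F L (P.1.eval α) = 0 := by
            rw [← aeval_algebraMap_apply_eq_algebraMap_eval, ← ha, ← h]
            exact hx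
          rw [map_eq_zero] at h5
          exact (eq_of_dvd_MI (P := mi α) (Q := P) (dvd_iff_isRoot.2 h5)).symm
        have : eval₂ (sg hx) s (G2 α P) = s ^ 3 - (1 - x ^ 3) := by
          unfold G2
          rw [if_neg hP]
          rw [eval₂_sub, eval₂_pow, eval₂_X, eval₂_C, map_sub, map_one, map_pow, sg_root]
        rw [this]
        simp [hxa]
    · refine Finset.card_bij (fun z _ => (z.2, b + z.1 * (z.2 - a))) ?_ ?_ ?_
      · rintro ⟨x, s⟩ hz
        simp only [Finset.mem_filter, Finset.mem_univ, true_and] at hz ⊢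
        refine ⟨?_, by linear_combination hz⟩
        intro hs
        apply hab
        rw [hs] at hz
        linear_combination hz
      · rintro ⟨x, s⟩ hz ⟨x', s'⟩ hz' h
        simp only [Finset.mem_filter, Finset.mem_univ, true_and, Prod.mk.injEq] at hz hz' h
        obtain ⟨h4, h5⟩ := h
        subst h4
        have hs : s - a ≠ 0 := by
          intro hs
          apply hab
          have hs' : s = a := sub_eq_zero.1 hs
          rw [hs'] at hz
          linear_combination hz
        have : x = x' := by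
          apply mul_right_cancel₀ hs
          linear_combination h5
        rw [this]
      · rintro ⟨X, Y⟩ hz
        simp only [Finset.mem_filter, Finset.mem_univ, true_and] at hz
        obtain ⟨h4, h5⟩ := hz
        have hs : X - a ≠ 0 := sub_ne_zero.2 h4
        have h6 : b + (Y - b) / (X - a) * (X - a) = Y := by
          rw [div_mul_cancel₀ _ hs]
          ring
        refine ⟨((Y - b) / (X - a), X), ?_, ?_⟩
        · simp only [Finset.mem_filter, Finset.mem_univ, true_and]
          rw [h6]
          linear_combination h5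
        · simp only [h6]

/-- the points with cube `ε` -/
theorem dvd_cube {z : F} (hz : z ^ 2 + z + 1 = 0) {ε : F} (hε : ε ^ 3 = ε) (P : MI F) :
    P.1 ∣ X ^ 3 - C ε ↔ P = mi ε ∨ P = mi (ε * z) ∨ P = mi (ε * z ^ 2) := by
  have hz3 : z ^ 3 = 1 := by linear_combination (z - 1) * hz
  have hf : (X ^ 3 - C ε : F[X]) = (X - C ε) * ((X - C (ε * z)) * (X - C (ε * z ^ 2))) := by
    have hzC : (C z : F[X]) ^ 2 + C z + 1 = 0 := by
      rw [← C_pow, ← C_1, ← C_add, ← C_add, hz, C_0]
    have hεC : (C ε : F[X]) ^ 3 = C ε := by rw [← C_pow, hε]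
    simp only [map_mul, map_pow]
    linear_combination (X ^ 2 * C ε - X * C ε ^ 2 * C z + C ε ^ 3 * (C z - 1)) * hzC + hεC
  rw [hf, P.2.2.prime.dvd_mul, P.2.2.prime.dvd_mul]
  constructor
  · rintro (h | h | h)
    · exact Or.inl (eq_of_dvd_MI (Q := mi ε) h)
    · exact Or.inr (Or.inl (eq_of_dvd_MI (Q := mi (ε * z)) h))
    · exact Or.inr (Or.inr (eq_of_dvd_MI (Q := mi (ε * z ^ 2)) h))
  · rintro (h | h | h)
    · left; rw [h]; exact dvd_rfl
    · right; left; rw [h]; exact dvd_rfl
    · right; right; rw [h]; exact dvd_rfl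

theorem deg_cube {z : F} (hz : z ^ 2 + z + 1 = 0) {ε : F} (hε : ε ^ 3 = ε) (P : MI F)
    (h : P.1 ∣ X ^ 3 - C ε) : P.1.natDegree = 1 := by
  rcases (dvd_cube hz hε P).1 h with h | h | h <;> rw [h] <;> exact natDegree_X_sub_C _

theorem card_cube (h3 : (3 : F) ≠ 0) {z : F} (hz : z ^ 2 + z + 1 = 0) {ε : F} (hε : ε ^ 3 = ε)
    (hε0 : ε ≠ 0) : (fac (X ^ 3 - C ε : F[X])).card = 3 := by
  classical
  have h1 : fac (X ^ 3 - C ε : F[X]) = {mi ε, mi (ε * z), mi (ε * z ^ 2)} := by
    ext P
    rw [mem_fac (kummer_ne ε), dvd_cube hz hε]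
    simp
  have hz1 : z ≠ 1 := by
    rintro rfl
    apply h3
    linear_combination hz
  have hz0 : z ≠ 0 := by
    rintro rfl
    simp at hz
  have a1 : mi ε ≠ mi (ε * z) := by
    intro h
    have := mi_inj h
    apply hz1
    apply mul_left_cancel₀ hε0
    linear_combination -this
  have a2 : mi ε ≠ mi (ε * z ^ 2) := by
    intro h
    have := mi_inj h
    have h4 : z ^ 2 = 1 := by
      apply mul_left_cancel₀ hε0
      linear_combination -this
    apply hz1
    have h5 : z ^ 3 = 1 := by linear_combination (z - 1) * hz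
    linear_combination h5 - z * h4
  have a3 : mi (ε * z) ≠ mi (ε * z ^ 2) := by
    intro h
    have := mi_inj h
    apply hz1
    apply mul_left_cancel₀ (mul_ne_zero hε0 hz0)
    linear_combination -this
  rw [h1, Finset.card_insert_of_notMem (by simp [a1, a2]), Finset.card_insert_of_notMem (by simp [a3]),
    Finset.card_singleton]

end global

end Pool.Agent.Y784.FC
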