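import Pool.Agent.W313.Hyp.Sigma

/-!
Euler products are determined by the numbers of points.
-/

set_option autoImplicit false
set_option maxHeartbeats 1000000

open PowerSeries

namespace Pool.Agent.Y784.FC

open Pool.Agent.W313.Hyp Pool.Agent.W343.BSD

section

variable {ι κ : Type*} {d : ι → ℕ} {e : κ → ℕ}

theorem eulerProd_equiv {R : Type*} [CommRing R]
    (hfin : ∀ n, {i | d i ≤ n}.Finite) (hfin' : ∀ n, {j | e j ≤ n}.Finite) (φ : ι ≃ κ)
    (h : ∀ i, e (φ i) = d i) (g : κ → PowerSeries R) :
    eulerProd d (fun i => g (φ i)) = eulerProd e g := by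
  ext n
  rw [coeff_eulerProd hfin, coeff_eulerProd hfin']
  congr 1
  refine Finset.prod_bij (fun i _ => φ i) ?_ ?_ ?_ ?_
  · intro i hi
    rw [Set.Finite.mem_toFinset] at hi ⊢
    show e (φ i) ≤ n
    rw [h]
    exact hi
  · intro i _ j _ hij
    exact φ.injective hij
  · intro j hj
    rw [Set.Finite.mem_toFinset] at hj
    refine ⟨φ.symm j, ?_, φ.apply_symm_apply j⟩
    rw [Set.Finite.mem_toFinset]
    show d (φ.symm j) ≤ n
    rw [← h, φ.apply_symm_apply]
    exact hj
  · intro i _
    rfl

/-- the number of points of degree dividing `N`, by degrees -/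
theorem sum_points (hfin : ∀ n, {i | d i ≤ n}.Finite) (N : ℕ) (hN : 0 < N) :
    ∑ i ∈ (hfin N).toFinset with d i ∣ N, d i = ∑ m ∈ N.divisors, m * {i | d i = m}.ncard := by
  classical
  rw [← Finset.sum_fiberwise_of_maps_to (s := (hfin N).toFinset.filter (fun i => d i ∣ N))
    (t := N.divisors) (g := d)]
  · refine Finset.sum_congr rfl fun m hm => ?_
    have hm' := (Nat.mem_divisors.1 hm).1
    have h1 : ((hfin N).toFinset.filter (fun i => d i ∣ N)).filter (fun i => d i = m) =
        ((hfin m).subset (show {i | d i = m} ⊆ {i | d i ≤ m} from fun i hi => le_of_eq hi)).toFinset := by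
      ext i
      rw [Finset.mem_filter, Finset.mem_filter, Set.Finite.mem_toFinset, Set.Finite.mem_toFinset]
      constructor
      · rintro ⟨_, h⟩
        exact h
      · intro h
        have h' : d i = m := h
        refine ⟨⟨?_, ?_⟩, h'⟩
        · show d i ≤ N
          rw [h']
          exact Nat.le_of_dvd hN hm'
        · rw [h']
          exact hm'
    rw [h1, Finset.sum_congr rfl (g := fun _ => m) (fun i hi => by
      rw [Set.Finite.mem_toFinset] at hi
      exact hi), Finset.sum_const, smul_eq_mul, mul_comm, ← Set.ncard_eq_toFinset_card {i | d i = m}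
        ((hfin m).subset (show {i | d i = m} ⊆ {i | d i ≤ m} from fun i hi => le_of_eq hi))]
  · intro i hi
    rw [Finset.mem_filter] at hi
    exact Nat.mem_divisors.2 ⟨hi.2, hN.ne'⟩

theorem counts_eq (hfin : ∀ n, {i | d i ≤ n}.Finite) (hfin' : ∀ n, {j | e j ≤ n}.Finite)
    (hd : ∀ i, 0 < d i) (he : ∀ j, 0 < e j)
    (h : ∀ N, 0 < N → ∑ i ∈ (hfin N).toFinset with d i ∣ N, d i =
      ∑ j ∈ (hfin' N).toFinset with e j ∣ N, e j) (m : ℕ) :
    {i | d i = m}.ncard = {j | e j = m}.ncard := by
  induction m using Nat.strong_induction_on with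
  | _ m ih =>
    rcases Nat.eq_zero_or_pos m with h0 | h0
    · subst h0
      have h1 : {i | d i = 0} = ∅ := by
        ext i
        simp [(hd i).ne']
      have h2 : {j | e j = 0} = ∅ := by
        ext j
        simp [(he j).ne']
      rw [h1, h2, Set.ncard_empty, Set.ncard_empty]
    · have h1 := h m h0
      rw [sum_points hfin m h0, sum_points hfin' m h0, ← Nat.cons_self_properDivisors h0.ne',
        Finset.sum_cons, Finset.sum_cons] at h1
      have h2 : ∑ k ∈ m.properDivisors, k * {i | d i = k}.ncard =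
          ∑ k ∈ m.properDivisors, k * {j | e j = k}.ncard := by
        refine Finset.sum_congr rfl fun k hk => ?_
        rw [ih k (Nat.mem_properDivisors.1 hk).2]
      have h3 : m * {i | d i = m}.ncard = m * {j | e j = m}.ncard := by omega
      exact Nat.eq_of_mul_eq_mul_left h0 h3

theorem euler_eq_of_counts (hfin : ∀ n, {i | d i ≤ n}.Finite) (hfin' : ∀ n, {j | e j ≤ n}.Finite)
    (hd : ∀ i, 0 < d i) (he : ∀ j, 0 < e j)
    (h : ∀ N, 0 < N → ∑ i ∈ (hfin N).toFinset with d i ∣ N, d i =
      ∑ j ∈ (hfin' N).toFinset with e j ∣ N, e j) (R : Type*) [CommRing R] :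
    eulerProd d (fun i => (1 - X ^ d i : PowerSeries R)) =
      eulerProd e (fun j => (1 - X ^ e j : PowerSeries R)) := by
  classical
  have hc := counts_eq hfin hfin' hd he h
  have hφ : ∀ m, Nonempty ({i // d i = m} ≃ {j // e j = m}) := by
    intro m
    have f1 : {i | d i = m}.Finite :=
      (hfin m).subset (show {i | d i = m} ⊆ {i | d i ≤ m} from fun i hi => le_of_eq hi)
    have f2 : {j | e j = m}.Finite :=
      (hfin' m).subset (show {j | e j = m} ⊆ {j | e j ≤ m} from fun i hi => le_of_eq hi)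
    have g1 : Finite {i // d i = m} := f1
    have g2 : Finite {j // e j = m} := f2
    exact Finite.card_eq.1 (hc m)
  let φ : ∀ m, ({i // d i = m} ≃ {j // e j = m}) := fun m => Classical.choice (hφ m)
  let ψ : ι ≃ κ := (Equiv.sigmaFiberEquiv d).symm.trans
    ((Equiv.sigmaCongrRight fun m => φ m).trans (Equiv.sigmaFiberEquiv e))
  have hψ : ∀ i, e (ψ i) = d i := fun i => (φ (d i) ⟨i, rfl⟩).2
  have h1 := eulerProd_equiv (R := R) hfin hfin' ψ hψ (fun j => (1 - X ^ e j : PowerSeries R))
  rw [← h1]
  congr 1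
  funext i
  rw [hψ]

end

end Pool.Agent.Y784.FC
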