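import Pool.Agent.Y784.FC.A
import Pool.Agent.TH943.PT.Orb

/-!
The points of a family of polynomials over the closed points of a line, over a finite extension.
-/

set_option autoImplicit false
set_option maxHeartbeats 1000000

open Polynomial

namespace Pool.Agent.Y784.FC

open Pool.Agent.W313.Hyp Pool.Agent.W343.BSD

section one

variable {K : Type} [Field K] [Finite K]

open Classical in
/-- the monic irreducible factors -/
noncomputable def fac (G : K[X]) : Finset (MI K) :=
  (finite_deg_le (F := K) G.natDegree).toFinset.filter (fun R => R.1 ∣ G)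

theorem mem_fac {G : K[X]} (hG : G ≠ 0) (R : MI K) : R ∈ fac G ↔ R.1 ∣ G := by
  classical
  unfold fac
  rw [Finset.mem_filter, Set.Finite.mem_toFinset]
  constructor
  · exact fun h => h.2
  · exact fun h => ⟨natDegree_le_of_dvd h hG, h⟩

variable {L : Type} [Field L] [Algebra K L] [Finite L]

/-- the minimal polynomial as a closed point -/
noncomputable def pt (K : Type) [Field K] {L : Type} [Field L] [Algebra K L] [Finite L] (s : L) :
    MI K :=
  ⟨minpoly K s, by
    have : Module.Finite K L := Module.Finite.of_finite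
    exact ⟨minpoly.monic (Algebra.IsIntegral.isIntegral _),
      minpoly.irreducible (Algebra.IsIntegral.isIntegral _)⟩⟩

open Classical in
theorem card_pt {M : ℕ} (hM : Module.finrank K L = M) [Fintype L] (R : MI K) :
    (Finset.univ.filter fun s : L => pt K s = R).card =
      if R.1.natDegree ∣ M then R.1.natDegree else 0 := by
  have h1 : (Finset.univ.filter fun s : L => pt K s = R).card = {u : L | minpoly K u = R.1}.ncard := by
    rw [← Set.ncard_coe_finset]
    congr 1
    ext s
    simp only [Finset.coe_filter, Finset.mem_univ, true_and, Set.mem_ofPred_eq]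
    exact Subtype.ext_iff
  rw [h1]
  split_ifs with h
  · exact Pool.Agent.TH943.PT.ncard_minpoly hM R.2.1 R.2.2 h
  · rw [Set.ncard_eq_zero (Set.toFinite _)]
    ext s
    simp only [Set.mem_ofPred_eq, Set.mem_empty_iff_false, iff_false]
    intro hs
    apply h
    rw [← hs]
    exact Pool.Agent.TH943.PT.natDegree_dvd hM s

open Classical in
/-- the number of the roots in a finite extension -/
theorem card_roots_ext {M : ℕ} (hM : Module.finrank K L = M) [Fintype L] {G : K[X]} (hG : G ≠ 0) :
    (Finset.univ.filter fun s : L => aeval s G = 0).card =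
      ∑ R ∈ fac G, if R.1.natDegree ∣ M then R.1.natDegree else 0 := by
  have : Module.Finite K L := Module.Finite.of_finite
  rw [Finset.card_eq_sum_card_fiberwise (f := fun s => pt K s) (t := fac G)]
  · refine Finset.sum_congr rfl fun R hR => ?_
    rw [mem_fac hG] at hR
    rw [← card_pt hM R]
    congr 1
    ext s
    simp only [Finset.mem_filter, Finset.mem_univ, true_and]
    constructor
    · exact fun h => h.2
    · intro h
      refine ⟨?_, h⟩
      obtain ⟨u, hu⟩ := hR
      rw [hu, map_mul]
      have h2 : aeval s R.1 = 0 := by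
        rw [← h]
        exact minpoly.aeval K s
      rw [h2, zero_mul]
  · intro s hs
    have hs' : aeval s G = 0 := by simpa using hs
    have h3 : (pt K s).1 ∣ G := minpoly.dvd K s hs'
    exact (mem_fac hG _).2 h3

end one

section two

variable {F : Type} [Field F]

instance factMI (P : MI F) : Fact (Irreducible P.1) := ⟨P.2.2⟩

/-- The residue field of a closed point of the line. -/
abbrev RF (P : MI F) : Type := AdjoinRoot P.1

variable {L : Type} [Field L] [Algebra F L]

/-- The embedding of the residue field. -/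
noncomputable def sg {P : MI F} {x : L} (hx : aeval x P.1 = 0) : RF P →+* L :=
  AdjoinRoot.lift (algebraMap F L) x hx

theorem sg_root {P : MI F} {x : L} (hx : aeval x P.1 = 0) : sg hx (AdjoinRoot.root P.1) = x :=
  AdjoinRoot.lift_root (i := algebraMap F L) hx

theorem sg_of {P : MI F} {x : L} (hx : aeval x P.1 = 0) (c : F) :
    sg hx (algebraMap F (RF P) c) = algebraMap F L c :=
  AdjoinRoot.lift_of (i := algebraMap F L) (h := hx) (x := c)

variable [Finite F]

instance finRF (P : MI F) : Finite (RF P) := by
  have : Module.Finite F (RF P) := P.2.1.finite_adjoinRoot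
  exact Module.finite_of_finite F

theorem finrank_RF (P : MI F) : Module.finrank F (RF P) = P.1.natDegree := by
  rw [(AdjoinRoot.powerBasis P.2.2.ne_zero).finrank, AdjoinRoot.powerBasis_dim]

variable [Finite L]

omit [Finite F] in
theorem pt_root (x : L) : aeval x (pt F x).1 = 0 := minpoly.aeval F x

omit [Finite F] in
theorem finrank_over {N : ℕ} (hN : Module.finrank F L = N) {P : MI F} {x : L}
    (hx : aeval x P.1 = 0) :
    @Module.finrank (RF P) L _ _ (sg hx).toAlgebra.toModule = N / P.1.natDegree := by
  let _ : Algebra (RF P) L := (sg hx).toAlgebra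
  have : IsScalarTower F (RF P) L := IsScalarTower.of_algebraMap_eq fun c => (sg_of hx c).symm
  have h1 := Module.finrank_mul_finrank F (RF P) L
  have h2 : Module.finrank F (RF P) = P.1.natDegree := by
    rw [(AdjoinRoot.powerBasis P.2.2.ne_zero).finrank, AdjoinRoot.powerBasis_dim]
  rw [h2, hN] at h1
  rw [← h1, Nat.mul_div_cancel_left _ (MI.deg_pos P)]

open Classical in
/-- the number of the points on the family over the extension -/
theorem card_points {N : ℕ} (hN : Module.finrank F L = N) (hN0 : 0 < N) [Fintype L]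
    (G : ∀ P : MI F, (RF P)[X]) (hG : ∀ P, G P ≠ 0) (V : L → L → Prop)
    (hV : ∀ (P : MI F) (x : L) (hx : aeval x P.1 = 0) (s : L), V x s ↔ eval₂ (sg hx) s (G P) = 0) :
    (Finset.univ.filter fun z : L × L => V z.1 z.2).card =
      ∑ P ∈ (finite_deg_le (F := F) N).toFinset, (if P.1.natDegree ∣ N then P.1.natDegree else 0) *
        ∑ R ∈ fac (G P), if R.1.natDegree ∣ N / P.1.natDegree then R.1.natDegree else 0 := by
  have : Module.Finite F L := Module.Finite.of_finite
  have hmaps : ∀ x : L, pt F x ∈ (finite_deg_le (F := F) N).toFinset := by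
    intro x
    rw [Set.Finite.mem_toFinset]
    exact Nat.le_of_dvd hN0 (Pool.Agent.TH943.PT.natDegree_dvd hN x)
  have h1 : (Finset.univ.filter fun z : L × L => V z.1 z.2).card =
      ∑ x : L, (Finset.univ.filter fun s : L => V x s).card := by
    rw [Finset.card_eq_sum_card_fiberwise (f := fun z : L × L => z.1) (t := Finset.univ)
      (fun z _ => by simp)]
    refine Finset.sum_congr rfl fun x _ => ?_
    refine Finset.card_bij (fun z _ => z.2) ?_ ?_ ?_
    · intro z hz
      simp only [Finset.mem_filter, Finset.mem_univ, true_and] at hz ⊢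
      rw [← hz.2]
      exact hz.1
    · intro z hz w hw h
      simp only [Finset.mem_filter, Finset.mem_univ, true_and] at hz hw
      exact Prod.ext (hz.2.trans hw.2.symm) h
    · intro s hs
      simp only [Finset.mem_filter, Finset.mem_univ, true_and] at hs
      exact ⟨(x, s), by simpa using hs, rfl⟩
  rw [h1, ← Finset.sum_fiberwise_of_maps_to (s := (Finset.univ : Finset L))
    (t := (finite_deg_le (F := F) N).toFinset) (g := fun x => pt F x) (fun x _ => hmaps x)]
  refine Finset.sum_congr rfl fun P _ => ?_
  rw [← card_pt hN P, ← smul_eq_mul, ← Finset.sum_const]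
  refine Finset.sum_congr rfl fun x hx => ?_
  rw [Finset.mem_filter] at hx
  have hx0 : aeval x P.1 = 0 := by
    rw [← hx.2]
    exact pt_root x
  let _ : Algebra (RF P) L := (sg hx0).toAlgebra
  have h3 : Module.finrank (RF P) L = N / P.1.natDegree := finrank_over hN hx0
  rw [← card_roots_ext h3 (hG P)]
  congr 1
  ext s
  simp only [Finset.mem_filter, Finset.mem_univ, true_and]
  exact hV P x hx0 s

end two

section euler

variable {F : Type} [Field F] [Finite F]

/-- The Euler product of the family. -/
noncomputable def EP (G : ∀ P : MI F, (RF P)[X]) (A : Type) [CommRing A] : PowerSeries A :=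
  eulerProd (fun P : MI F => P.1.natDegree)
    (fun P => ∏ R ∈ fac (G P), (1 - PowerSeries.X ^ (P.1.natDegree * R.1.natDegree)))

/-- the closed points of the family -/
abbrev CP (G : ∀ P : MI F, (RF P)[X]) : Type := Σ P : MI F, {R : MI (RF P) // R ∈ fac (G P)}

theorem cp_finite (G : ∀ P : MI F, (RF P)[X]) (n : ℕ) :
    {v : CP G | v.1.1.natDegree * v.2.1.1.natDegree ≤ n}.Finite :=
  sigma_finite (κ := fun P => {R : MI (RF P) // R ∈ fac (G P)}) (d := fun P : MI F => P.1.natDegree)
    (e := fun P R => R.1.1.natDegree) (fun n => finite_deg_le n) (fun P => MI.deg_pos P)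
    (fun P n => Set.toFinite _) (fun P R => MI.deg_pos R.1) n

theorem EP_eq (G : ∀ P : MI F, (RF P)[X]) (A : Type) [CommRing A] :
    EP G A = eulerProd (fun v : CP G => v.1.1.natDegree * v.2.1.1.natDegree)
      (fun v => (1 - PowerSeries.X ^ (v.1.1.natDegree * v.2.1.1.natDegree))) := by
  classical
  rw [eulerProd_sigma (ι := MI F) (κ := fun P => {R : MI (RF P) // R ∈ fac (G P)})
    (d := fun P : MI F => P.1.natDegree) (e := fun P R => R.1.1.natDegree)
    (fun n => finite_deg_le n) (fun P => MI.deg_pos P) (fun P n => Set.toFinite _)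
    (fun P R => MI.deg_pos R.1) _ (fun v => by
      rw [sub_right_comm, sub_self, zero_sub]
      exact (dvd_neg).2 dvd_rfl)]
  unfold EP
  congr 1
  funext P
  rw [eulerProd_of_finset (fun n => Set.toFinite _) (fun R => by
      rw [sub_right_comm, sub_self, zero_sub]
      exact (dvd_neg).2 dvd_rfl) Finset.univ (fun i hi => absurd (Finset.mem_univ i) hi)]
  exact (Finset.prod_coe_sort (fac (G P)) (fun R => (1 - PowerSeries.X ^ (P.1.natDegree *
    R.1.natDegree) : PowerSeries A))).symm

theorem dvd_iff {a b N : ℕ} (ha : 0 < a) : a * b ∣ N ↔ a ∣ N ∧ b ∣ N / a := by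
  constructor
  · intro h
    refine ⟨(Dvd.intro _ rfl).trans h, ?_⟩
    obtain ⟨c, rfl⟩ := h
    rw [mul_assoc, Nat.mul_div_cancel_left _ ha]
    exact Dvd.intro _ rfl
  · rintro ⟨⟨c, rfl⟩, h⟩
    rw [Nat.mul_div_cancel_left _ ha] at h
    exact Nat.mul_dvd_mul_left a h

theorem sum_cp (G : ∀ P : MI F, (RF P)[X]) (N : ℕ) (hN : 0 < N) :
    ∑ v ∈ (cp_finite G N).toFinset with v.1.1.natDegree * v.2.1.1.natDegree ∣ N,
      v.1.1.natDegree * v.2.1.1.natDegree =
    ∑ P ∈ (finite_deg_le (F := F) N).toFinset, (if P.1.natDegree ∣ N then P.1.natDegree else 0) *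
        ∑ R ∈ fac (G P), if R.1.natDegree ∣ N / P.1.natDegree then R.1.natDegree else 0 := by
  classical
  have h1 : (cp_finite G N).toFinset.filter (fun v : CP G =>
      v.1.1.natDegree * v.2.1.1.natDegree ∣ N) =
      ((finite_deg_le (F := F) N).toFinset.sigma (fun P =>
        (Finset.univ : Finset {R : MI (RF P) // R ∈ fac (G P)}))).filter (fun v : CP G =>
      v.1.1.natDegree * v.2.1.1.natDegree ∣ N) := by
    ext v
    rw [Finset.mem_filter, Finset.mem_filter, Finset.mem_sigma, Set.Finite.mem_toFinset,
      Set.Finite.mem_toFinset]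
    constructor
    · rintro ⟨h, h'⟩
      refine ⟨⟨?_, Finset.mem_univ _⟩, h'⟩
      exact Nat.le_of_dvd hN (((dvd_iff (MI.deg_pos v.1)).1 h').1)
    · rintro ⟨_, h'⟩
      exact ⟨Nat.le_of_dvd hN h', h'⟩
  rw [h1, Finset.sum_filter, Finset.sum_sigma]
  refine Finset.sum_congr rfl fun P _ => ?_
  rw [Finset.sum_coe_sort (fac (G P)) (fun R => if P.1.natDegree * R.1.natDegree ∣ N then
    P.1.natDegree * R.1.natDegree else 0), Finset.mul_sum]
  refine Finset.sum_congr rfl fun R _ => ?_
  have h0 := dvd_iff (b := R.1.natDegree) (N := N) (MI.deg_pos P)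
  by_cases h2 : P.1.natDegree ∣ N
  · by_cases h3 : R.1.natDegree ∣ N / P.1.natDegree
    · rw [if_pos (h0.2 ⟨h2, h3⟩), if_pos h2, if_pos h3]
    · rw [if_neg (fun h => h3 (h0.1 h).2), if_neg h3, mul_zero]
  · rw [if_neg (fun h => h2 (h0.1 h).1), if_neg h2, zero_mul]

open Classical in
/-- Two families with the same numbers of points over all finite extensions have the same Euler
product. -/
theorem EP_congr (G G' : ∀ P : MI F, (RF P)[X]) (hG : ∀ P, G P ≠ 0) (hG' : ∀ P, G' P ≠ 0)
    (h : ∀ (L : Type) [Field L] [Algebra F L] [Fintype L], ∃ V V' : L → L → Prop,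
      (∀ (P : MI F) (x : L) (hx : aeval x P.1 = 0) (s : L), V x s ↔ eval₂ (sg hx) s (G P) = 0) ∧
      (∀ (P : MI F) (x : L) (hx : aeval x P.1 = 0) (s : L), V' x s ↔ eval₂ (sg hx) s (G' P) = 0) ∧
      (Finset.univ.filter fun z : L × L => V z.1 z.2).card =
      (Finset.univ.filter fun z : L × L => V' z.1 z.2).card) (A : Type) [CommRing A] :
    EP G A = EP G' A := by
  rw [EP_eq, EP_eq]
  refine euler_eq_of_counts (cp_finite G) (cp_finite G')
    (fun v => Nat.mul_pos (MI.deg_pos v.1) (MI.deg_pos v.2.1))
    (fun v => Nat.mul_pos (MI.deg_pos v.1) (MI.deg_pos v.2.1)) ?_ A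
  intro N hN
  rw [sum_cp G N hN, sum_cp G' N hN]
  obtain ⟨p, hp⟩ := CharP.exists F
  have : Fact p.Prime := ⟨CharP.char_is_prime F p⟩
  have : NeZero N := ⟨hN.ne'⟩
  have hfr := FiniteField.finrank_extension F p N
  have : Fintype (FiniteField.Extension F p N) := Fintype.ofFinite _
  obtain ⟨V, V', h1, h2, h3⟩ := h (FiniteField.Extension F p N)
  rw [← card_points hfr hN G hG V h1, ← card_points hfr hN G' hG' V' h2, h3]

end euler

end Pool.Agent.Y784.FC
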