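import Pool.Agent.Y784.FC.B
import Pool.Agent.TH943.PT.Dk

/-!
The factorisation of quadratic and cubic polynomials over finite fields and the quadratic character
of the discriminant.
-/

set_option autoImplicit false
set_option maxHeartbeats 1000000

open Polynomial

namespace Pool.Agent.Y784.FC

open Pool.Agent.W313.Hyp Pool.Agent.W343.BSD

section loc

variable {K : Type} [Field K] [Finite K]

/-- the closed point `t` -/
noncomputable def mi (t : K) : MI K := ⟨X - C t, monic_X_sub_C t, irreducible_X_sub_C t⟩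

omit [Finite K] in
theorem mi_inj {s t : K} (h : mi s = mi t) : s = t := by
  have h1 : (X - C s : K[X]) = X - C t := congrArg Subtype.val h
  have h2 : C s = C t := by linear_combination -h1
  exact C_injective h2

open Classical in
theorem fac_mul {G H : K[X]} (hG : G ≠ 0) (hH : H ≠ 0) : fac (G * H) = fac G ∪ fac H := by
  ext R
  rw [Finset.mem_union, mem_fac (mul_ne_zero hG hH), mem_fac hG, mem_fac hH]
  exact R.2.2.prime.dvd_mul

theorem fac_MI (P : MI K) : fac P.1 = {P} := by
  ext R
  rw [mem_fac P.2.2.ne_zero, Finset.mem_singleton]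
  constructor
  · exact fun h => eq_of_dvd_MI h
  · rintro rfl
    exact dvd_rfl

theorem fac_C_mul {c : K} (hc : c ≠ 0) (G : K[X]) (hG : G ≠ 0) : fac (C c * G) = fac G := by
  ext R
  rw [mem_fac (mul_ne_zero (C_ne_zero.2 hc) hG), mem_fac hG]
  exact (isUnit_C.2 (isUnit_iff_ne_zero.2 hc)).dvd_mul_left

open Classical in
/-- the quadratic character -/
noncomputable def qc (D : K) : ℤ := if D = 0 then 0 else if IsSquare D then 1 else -1

omit [Finite K] in
theorem qc_mul_sq (D : K) {e : K} (he : e ≠ 0) : qc (D * e ^ 2) = qc D := by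
  classical
  unfold qc
  have h1 : D * e ^ 2 = 0 ↔ D = 0 := by
    simp [he]
  have h2 : IsSquare (D * e ^ 2) ↔ IsSquare D := by
    constructor
    · rintro ⟨r, hr⟩
      refine ⟨r / e, ?_⟩
      field_simp
      linear_combination hr
    · rintro ⟨r, hr⟩
      exact ⟨r * e, by rw [hr]; ring⟩
  by_cases a : D = 0
  · rw [if_pos (h1.2 a), if_pos a]
  · rw [if_neg (fun h => a (h1.1 h)), if_neg a]
    by_cases b : IsSquare D
    · rw [if_pos (h2.2 b), if_pos b]
    · rw [if_neg (fun h => b (h2.1 h)), if_neg b]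

omit [Finite K] in
theorem qc_zero : qc (0 : K) = 0 := by
  unfold qc
  simp

omit [Finite K] in
theorem qc_sq {e : K} (he : e ≠ 0) : qc (e ^ 2) = 1 := by
  classical
  unfold qc
  rw [if_neg (pow_ne_zero 2 he), if_pos ⟨e, sq e⟩]

omit [Finite K] in
theorem qc_nonsq {D : K} (h : ¬ IsSquare D) : qc D = -1 := by
  classical
  unfold qc
  rw [if_neg (fun h0 => h (by rw [h0]; exact ⟨0, by simp⟩)), if_neg h]

variable {S : Type} [CommRing S]

/-- the local product -/
noncomputable def pr (G : K[X]) (T : S) : S := ∏ R ∈ fac G, (1 - T ^ R.1.natDegree)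

theorem pr_MI (P : MI K) (T : S) : pr P.1 T = 1 - T ^ P.1.natDegree := by
  unfold pr
  rw [fac_MI, Finset.prod_singleton]

theorem pr_lin (t : K) (T : S) : pr (X - C t) T = 1 - T := by
  have := pr_MI (mi t) T
  rw [show (mi t).1 = X - C t from rfl, natDegree_X_sub_C, pow_one] at this
  exact this

theorem pr_mul {G H : K[X]} (hG : G ≠ 0) (hH : H ≠ 0) (h : ∀ R : MI K, R.1 ∣ G → ¬ R.1 ∣ H)
    (T : S) : pr (G * H) T = pr G T * pr H T := by
  classical
  unfold pr
  rw [fac_mul hG hH, Finset.prod_union]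
  rw [Finset.disjoint_left]
  intro R h1 h2
  rw [mem_fac hG] at h1
  rw [mem_fac hH] at h2
  exact h R h1 h2

theorem pr_mul_lin {H : K[X]} (hH : H ≠ 0) {t : K} (ht : H.eval t ≠ 0) (T : S) :
    pr ((X - C t) * H) T = (1 - T) * pr H T := by
  rw [pr_mul (X_sub_C_ne_zero t) hH, pr_lin]
  intro R h1 h2
  have h3 : R = mi t := eq_of_dvd_MI (Q := mi t) h1
  rw [h3] at h2
  exact ht (dvd_iff_isRoot.1 h2)

theorem pr_sq_lin (t : K) (T : S) : pr ((X - C t) * (X - C t)) T = 1 - T := by
  classical
  unfold pr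
  rw [fac_mul (X_sub_C_ne_zero t) (X_sub_C_ne_zero t), Finset.union_self]
  exact pr_lin t T

omit [Finite K] in
theorem quad_ne (m n : K) : (X ^ 2 + C m * X + C n : K[X]) ≠ 0 := by
  intro h
  have := congrArg (fun p => coeff p 2) h
  simp [coeff_X, coeff_C] at this

omit [Finite K] in
theorem quad_monic (m n : K) : (X ^ 2 + C m * X + C n : K[X]).Monic := by
  monicity!

omit [Finite K] in
theorem quad_deg (m n : K) : (X ^ 2 + C m * X + C n : K[X]).natDegree = 2 := by
  compute_degree!

/-- quadratic polynomials -/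
theorem pr_quad (h2 : (2 : K) ≠ 0) (m n : K) (T : S) :
    pr (X ^ 2 + C m * X + C n : K[X]) T = (1 - T) * (1 - (qc (m ^ 2 - 4 * n) : S) * T) := by
  by_cases hs : IsSquare (m ^ 2 - 4 * n)
  · obtain ⟨e, he⟩ := hs
    have hC2 : (C 2 : K[X]) ≠ 0 := C_ne_zero.2 h2
    obtain ⟨t1, ht1⟩ : ∃ t1 : K, t1 = (-m + e) / 2 := ⟨_, rfl⟩
    obtain ⟨t2, ht2⟩ : ∃ t2 : K, t2 = (-m - e) / 2 := ⟨_, rfl⟩
    have hm : m = -(t1 + t2) := by rw [ht1, ht2]; field_simp; ring
    have he' : e = t1 - t2 := by rw [ht1, ht2]; field_simp; ring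
    have hn : n = t1 * t2 := by
      have h4 : (4 : K) ≠ 0 := by
        have : (4 : K) = 2 * 2 := by norm_num
        rw [this]
        exact mul_ne_zero h2 h2
      apply mul_left_cancel₀ h4
      rw [hm, he'] at he
      linear_combination -he
    have hf : (X ^ 2 + C m * X + C n : K[X]) = (X - C t1) * (X - C t2) := by
      rw [hm, hn]
      simp only [map_neg, map_add, map_mul]
      ring
    by_cases h12 : t1 = t2
    · have hD : m ^ 2 - 4 * n = 0 := by rw [hm, hn, h12]; ring
      rw [hf, hD, qc_zero, h12, pr_sq_lin]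
      push_cast
      ring
    · have hD : m ^ 2 - 4 * n = (t1 - t2) ^ 2 := by rw [hm, hn]; ring
      rw [hf, hD, qc_sq (sub_ne_zero.2 h12), pr_mul_lin (X_sub_C_ne_zero t2) (by
        rw [eval_sub, eval_X, eval_C]
        exact sub_ne_zero.2 h12), pr_lin]
      push_cast
      ring
  · have hirr : Irreducible (X ^ 2 + C m * X + C n : K[X]) := by
      rw [(quad_monic m n).irreducible_iff_roots_eq_zero_of_degree_le_three
        (by rw [quad_deg]) (by rw [quad_deg]; norm_num)]
      rw [Multiset.eq_zero_iff_forall_notMem]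
      intro t ht
      rw [mem_roots'] at ht
      apply hs
      have h1 : t ^ 2 + m * t + n = 0 := by
        have := ht.2
        rw [IsRoot, eval_add, eval_add, eval_pow, eval_mul, eval_X, eval_C, eval_C] at this
        exact this
      exact ⟨2 * t + m, by linear_combination -4 * h1⟩
    have h1 := pr_MI ⟨_, quad_monic m n, hirr⟩ T
    rw [h1, quad_deg, qc_nonsq hs]
    push_cast
    ring

/-- the discriminant -/
def disc3 (u v w : K) : K := u ^ 2 * v ^ 2 - 4 * v ^ 3 - 4 * u ^ 3 * w - 27 * w ^ 2 + 18 * u * v * w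

omit [Finite K] in
theorem cub_monic (u v w : K) : (X ^ 3 + C u * X ^ 2 + C v * X + C w : K[X]).Monic := by
  monicity!

omit [Finite K] in
theorem cub_deg (u v w : K) : (X ^ 3 + C u * X ^ 2 + C v * X + C w : K[X]).natDegree = 3 := by
  compute_degree!

/-- the discriminant of an irreducible cubic polynomial is a square -/
theorem disc_irr (u v w : K)
    (hirr : Irreducible (X ^ 3 + C u * X ^ 2 + C v * X + C w : K[X])) :
    ∃ e : K, e ≠ 0 ∧ disc3 u v w = e ^ 2 := by
  classical
  set g : K[X] := X ^ 3 + C u * X ^ 2 + C v * X + C w with hg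
  have : Fact (Irreducible g) := ⟨hirr⟩
  have hmon : g.Monic := cub_monic u v w
  have hdeg : g.natDegree = 3 := cub_deg u v w
  have hfin : Module.Finite K (AdjoinRoot g) := hmon.finite_adjoinRoot
  have hrk : Module.finrank K (AdjoinRoot g) = 3 := by
    rw [(AdjoinRoot.powerBasis hirr.ne_zero).finrank, AdjoinRoot.powerBasis_dim, hdeg]
  have : Finite (AdjoinRoot g) := Module.finite_of_finite K
  have : Fintype K := Fintype.ofFinite K
  have : Fintype (AdjoinRoot g) := Fintype.ofFinite _
  have hcard : Fintype.card (AdjoinRoot g) = Fintype.card K ^ 3 := by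
    rw [Module.card_eq_pow_finrank (K := K), hrk]
  set q := Fintype.card K with hq
  -- Frobenius
  let φ : AdjoinRoot g →ₐ[K] AdjoinRoot g := (FiniteField.frobeniusAlgHom K (AdjoinRoot g))
  have hφ : ∀ x, φ x = x ^ q := fun x => rfl
  have hφ3 : ∀ x, φ (φ (φ x)) = x := by
    intro x
    have h1 : q * q * q = Fintype.card (AdjoinRoot g) := by
      rw [hcard]; ring
    rw [hφ, hφ, hφ, ← pow_mul, ← pow_mul, ← mul_assoc, h1]
    exact FiniteField.pow_card x
  set ι := algebraMap K (AdjoinRoot g) with hι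
  have hιinj : Function.Injective ι := (algebraMap K (AdjoinRoot g)).injective
  set θ : AdjoinRoot g := AdjoinRoot.root g with hθ
  have hroot : ∀ x : AdjoinRoot g, aeval x g = x ^ 3 + ι u * x ^ 2 + ι v * x + ι w := by
    intro x
    have h1 : aeval x g = aeval x (X ^ 3 + C u * X ^ 2 + C v * X + C w : K[X]) := rfl
    rw [h1]
    simp [hι]
  have h0 : θ ^ 3 + ι u * θ ^ 2 + ι v * θ + ι w = 0 := by
    rw [← hroot, AdjoinRoot.aeval_eq, AdjoinRoot.mk_self]
  have hcom : ∀ c : K, φ (ι c) = ι c := fun c => φ.commutes c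
  have step : ∀ x : AdjoinRoot g, x ^ 3 + ι u * x ^ 2 + ι v * x + ι w = 0 →
      (φ x) ^ 3 + ι u * (φ x) ^ 2 + ι v * (φ x) + ι w = 0 := by
    intro x hx
    have := congrArg φ hx
    rw [map_add, map_add, map_add, map_mul, map_mul, map_pow, map_pow, hcom, hcom, hcom,
      map_zero] at this
    exact this
  have h1 := step _ h0
  have h2 := step _ h1
  have hinj : Function.Injective φ := φ.toRingHom.injective
  -- no root in `K`
  have hnr : ∀ c : K, ι c ≠ θ := by
    intro c hc
    have h3 : c ^ 3 + u * c ^ 2 + v * c + w = 0 := by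
      apply hιinj
      rw [map_zero, map_add, map_add, map_add, map_mul, map_mul, map_pow, map_pow, hc]
      exact h0
    have h4 : g.IsRoot c := by
      rw [IsRoot, hg]
      simpa using h3
    have h6 : (X - C c) ∣ g := dvd_iff_isRoot.2 h4
    have h7 := (irreducible_X_sub_C c).associated_of_dvd hirr h6
    have h8 := natDegree_eq_of_degree_eq (degree_eq_degree_of_associated h7)
    rw [natDegree_X_sub_C, hdeg] at h8
    omega
  have hrange : ∀ x : AdjoinRoot g, φ x = x → ∃ c : K, ι c = x := by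
    intro x hx
    exact Pool.Agent.TH943.PT.mem_range_of_pow (L := K) (F := AdjoinRoot g) hx
  have d01 : θ ≠ φ θ := by
    intro h
    obtain ⟨c, hc⟩ := hrange θ h.symm
    exact hnr c hc
  have d12 : φ θ ≠ φ (φ θ) := fun h => d01 (hinj h)
  have d20 : φ (φ θ) ≠ θ := by
    intro h
    apply d01
    have := congrArg φ h
    rw [hφ3] at this
    exact this
  set a := θ with ha
  set b := φ θ with hb
  set c := φ b with hc
  have hca : φ c = a := hφ3 θ
  have e1 : a ^ 2 + a * b + b ^ 2 + ι u * (a + b) + ι v = 0 := by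
    apply mul_left_cancel₀ (sub_ne_zero.2 d01)
    linear_combination h0 - h1
  have e2 : b ^ 2 + b * c + c ^ 2 + ι u * (b + c) + ι v = 0 := by
    apply mul_left_cancel₀ (sub_ne_zero.2 d12)
    linear_combination h1 - h2
  have e3 : ι u = -(a + b + c) := by
    apply mul_left_cancel₀ (sub_ne_zero.2 d20)
    linear_combination e2 - e1
  have e4 : ι v = a * b + b * c + c * a := by
    rw [e3] at e1
    linear_combination e1
  have e5 : ι w = -(a * b * c) := by
    rw [e3, e4] at h0
    linear_combination h0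
  obtain ⟨δ, hδ⟩ := hrange ((a - b) * (b - c) * (c - a)) (by
    rw [map_mul, map_mul, map_sub, map_sub, map_sub, ← hb, ← hc, hca]
    ring)
  refine ⟨δ, ?_, ?_⟩
  · intro h
    rw [h, map_zero] at hδ
    exact mul_ne_zero (mul_ne_zero (sub_ne_zero.2 d01) (sub_ne_zero.2 d12)) (sub_ne_zero.2 d20)
      hδ.symm
  · apply hιinj
    rw [map_pow, hδ]
    unfold disc3
    simp only [map_sub, map_add, map_mul, map_pow, map_ofNat]
    rw [e3, e4, e5]
    ring

theorem one_sub_cube [CharP S 3] (T : S) : 1 - T ^ 3 = (1 - T) ^ 3 := by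
  have h3 : (3 : S) = 0 := by exact_mod_cast CharP.cast_eq_zero S 3
  linear_combination (T - T ^ 2) * h3

/-- cubic polynomials without a triple root -/
theorem pr_cub [CharP S 3] (h2 : (2 : K) ≠ 0) (u v w : K)
    (htr : ∀ r : K, ¬ (u = -3 * r ∧ v = 3 * r ^ 2 ∧ w = - r ^ 3)) (T : S) :
    pr (X ^ 3 + C u * X ^ 2 + C v * X + C w : K[X]) T =
      (1 - T) ^ 2 * (1 - (qc (disc3 u v w) : S) * T) := by
  by_cases hr : ∃ r : K, r ^ 3 + u * r ^ 2 + v * r + w = 0
  · obtain ⟨r, hr⟩ := hr
    obtain ⟨m, hm⟩ : ∃ m : K, m = u + r := ⟨_, rfl⟩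
    obtain ⟨n, hn⟩ : ∃ n : K, n = v + m * r := ⟨_, rfl⟩
    have hu : u = m - r := by rw [hm]; ring
    have hv : v = n - m * r := by rw [hn]; ring
    have hw : w = -(n * r) := by
      rw [hu, hv] at hr
      linear_combination hr
    have hf : (X ^ 3 + C u * X ^ 2 + C v * X + C w : K[X]) =
        (X - C r) * (X ^ 2 + C m * X + C n) := by
      rw [hu, hv, hw]
      simp only [map_neg, map_sub, map_mul]
      ring
    have hD : disc3 u v w = (m ^ 2 - 4 * n) * (r ^ 2 + m * r + n) ^ 2 := by
      unfold disc3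
      rw [hu, hv, hw]
      ring
    by_cases h0 : r ^ 2 + m * r + n = 0
    · obtain ⟨t, ht⟩ : ∃ t : K, t = -m - r := ⟨_, rfl⟩
      have hf2 : (X ^ 2 + C m * X + C n : K[X]) = (X - C r) * (X - C t) := by
        have hn' : n = r * t := by rw [ht]; linear_combination h0
        have hm' : m = -(r + t) := by rw [ht]; ring
        rw [hn', hm']
        simp only [map_neg, map_add, map_mul]
        ring
      have hrt : r ≠ t := by
        intro h
        apply htr r
        rw [← h] at ht
        refine ⟨?_, ?_, ?_⟩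
        · rw [hu]; linear_combination ht
        · rw [hv]; linear_combination h0 - 2 * r * ht
        · rw [hw]; linear_combination -r * h0 + r ^ 2 * ht
      have hf3 : (X - C r) * ((X - C r) * (X - C t)) = (X - C t) * ((X - C r) * (X - C r) : K[X]) := by
        ring
      rw [hf, hf2, hD, h0, hf3, pr_mul_lin (mul_ne_zero (X_sub_C_ne_zero r) (X_sub_C_ne_zero r))
        (by
          rw [eval_mul, eval_sub, eval_X, eval_C]
          exact mul_ne_zero (sub_ne_zero.2 hrt.symm) (sub_ne_zero.2 hrt.symm)), pr_sq_lin]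
      have : (m ^ 2 - 4 * n) * 0 ^ 2 = 0 := by ring
      rw [this, qc_zero]
      push_cast
      ring
    · rw [hf, hD, qc_mul_sq _ h0, pr_mul_lin (quad_ne m n) (by
        rw [eval_add, eval_add, eval_pow, eval_mul, eval_X, eval_C, eval_C]
        exact h0), pr_quad h2]
      ring
  · have hirr : Irreducible (X ^ 3 + C u * X ^ 2 + C v * X + C w : K[X]) := by
      rw [(cub_monic u v w).irreducible_iff_roots_eq_zero_of_degree_le_three
        (by rw [cub_deg]; norm_num) (by rw [cub_deg])]
      rw [Multiset.eq_zero_iff_forall_notMem]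
      intro t ht
      rw [mem_roots'] at ht
      apply hr
      refine ⟨t, ?_⟩
      have := ht.2
      rw [IsRoot, eval_add, eval_add, eval_add, eval_mul, eval_mul, eval_pow, eval_pow, eval_X,
        eval_C, eval_C, eval_C] at this
      exact this
    obtain ⟨e, he, hD⟩ := disc_irr u v w hirr
    have h1 := pr_MI ⟨_, cub_monic u v w, hirr⟩ T
    rw [h1, cub_deg, hD, qc_sq he, one_sub_cube]
    push_cast
    ring

end loc

end Pool.Agent.Y784.FC
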