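import Pool.Agent.Y784.FC.C
import Pool.Agent.Y711.Base

/-!
The pencil of lines of the Fermat cubic: local computations.
-/

set_option autoImplicit false
set_option maxHeartbeats 1000000

open Polynomial

namespace Pool.Agent.Y784.FC

open Pool.Agent.W313.Hyp Pool.Agent.W343.BSD Pool.Agent.Y711

section local_

variable {K : Type} [Field K]

/-- the intersection of the Fermat cubic with a line -/
noncomputable def Phi (a b x : K) : K[X] := X ^ 3 + (C b + C x * (X - C a)) ^ 3 - 1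

/-- the value of `hF` -/
def hf (a b x : K) : K :=
  -3 * ((b - a * x) ^ 6 - 2 * (1 - x ^ 3) * (b - a * x) ^ 3 + (1 + x ^ 3) ^ 2)

theorem Phi_eq (a b x : K) : Phi a b x = C (1 + x ^ 3) * X ^ 3 +
    C (3 * x ^ 2 * (b - a * x)) * X ^ 2 + C (3 * x * (b - a * x) ^ 2) * X +
    C ((b - a * x) ^ 3 - 1) := by
  unfold Phi
  simp only [map_add, map_sub, map_mul, map_pow, map_one]
  rw [show (C (3 : K) : K[X]) = 3 from map_ofNat C 3]
  ring

theorem coeff_gen (p q r s : K) :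
    (C p * X ^ 3 + C q * X ^ 2 + C r * X + C s : K[X]).coeff 3 = p ∧
    (C p * X ^ 3 + C q * X ^ 2 + C r * X + C s : K[X]).coeff 1 = r := by
  constructor <;> simp [coeff_X, coeff_C]

theorem Phi_ne (a b x : K) (h3 : (3 : K) ≠ 0) (h : a ^ 3 + b ^ 3 ≠ 0) : Phi a b x ≠ 0 := by
  intro h0
  have h1 : (Phi a b x).coeff 3 = 1 + x ^ 3 := by
    rw [Phi_eq]
    exact (coeff_gen _ _ _ _).1
  have h2 : (Phi a b x).coeff 1 = 3 * x * (b - a * x) ^ 2 := by
    rw [Phi_eq]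
    exact (coeff_gen _ _ _ _).2
  rw [h0, coeff_zero] at h1 h2
  have hx : x ≠ 0 := by
    rintro rfl
    simp at h1
  have h4 : (b - a * x) = 0 := by
    have := mul_ne_zero h3 hx
    have h5 := (mul_eq_zero.1 h2.symm).resolve_left this
    exact pow_eq_zero_iff (two_ne_zero) |>.1 h5
  apply h
  have h5 : b = a * x := by linear_combination h4
  rw [h5]
  linear_combination -a ^ 3 * h1

variable [Finite K] {S : Type} [CommRing S] [CharP S 3]

theorem pr_Phi (h2 : (2 : K) ≠ 0) (h3 : (3 : K) ≠ 0) (a b x : K) (hb : b ^ 3 ≠ 1)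
    (hx : 1 + x ^ 3 ≠ 0) (T : S) :
    pr (Phi a b x) T = (1 - T) ^ 2 * (1 - (qc (hf a b x) : S) * T) := by
  obtain ⟨B, hB⟩ : ∃ B, B = b - a * x := ⟨_, rfl⟩
  obtain ⟨c, hc⟩ : ∃ c, c = 1 + x ^ 3 := ⟨_, rfl⟩
  have hc0 : c ≠ 0 := by rw [hc]; exact hx
  have h1 : Phi a b x = C c * (X ^ 3 + C (3 * x ^ 2 * B / c) * X ^ 2 + C (3 * x * B ^ 2 / c) * X +
      C ((B ^ 3 - 1) / c)) := by
    rw [Phi_eq, ← hB, ← hc]
    have e : ∀ y : K, C y = C c * C (y / c) := by
      intro y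
      rw [← C_mul, mul_div_cancel₀ _ hc0]
    rw [e (3 * x ^ 2 * B), e (3 * x * B ^ 2), e (B ^ 3 - 1)]
    ring
  have hpr : pr (Phi a b x) T = pr (X ^ 3 + C (3 * x ^ 2 * B / c) * X ^ 2 +
      C (3 * x * B ^ 2 / c) * X + C ((B ^ 3 - 1) / c)) T := by
    unfold pr
    rw [h1, fac_C_mul hc0 _ (cub_monic _ _ _).ne_zero]
  have hD : disc3 (3 * x ^ 2 * B / c) (3 * x * B ^ 2 / c) ((B ^ 3 - 1) / c) * (c ^ 2) ^ 2 =
      hf a b x * 3 ^ 2 := by
    unfold disc3 hf
    rw [← hB]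
    have hc' : x ^ 3 = c - 1 := by rw [hc]; ring
    field_simp
    have e1 : (1 + x ^ 3) = c := hc.symm
    rw [e1]
    have e6 : x ^ 6 = (c - 1) ^ 2 := by rw [← hc']; ring
    ring_nf
    rw [e6, hc']
    ring
  rw [hpr, pr_cub h2, ← qc_mul_sq _ (pow_ne_zero 2 hc0), hD, qc_mul_sq _ h3]
  rintro r ⟨e1, e2, e3⟩
  rw [div_eq_iff hc0] at e1 e2 e3
  have f1 : x ^ 2 * B = -r * c := by
    apply mul_left_cancel₀ h3
    linear_combination e1
  have f2 : x * B ^ 2 = r ^ 2 * c := by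
    apply mul_left_cancel₀ h3
    linear_combination e2
  have f3 : x * B ^ 2 = 0 := by
    have : x ^ 4 * B ^ 2 = c * (x * B ^ 2) := by
      rw [f2]
      linear_combination (x ^ 2 * B - r * c) * f1
    rw [hc] at this
    linear_combination -this
  have f4 : r = 0 := by
    rw [f3] at f2
    have := (mul_eq_zero.1 f2.symm).resolve_right hc0
    exact pow_eq_zero_iff (two_ne_zero) |>.1 this
  rw [f4] at e3
  have f5 : B ^ 3 = 1 := by linear_combination e3
  have f6 : x = 0 := by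
    rcases mul_eq_zero.1 f3 with h | h
    · exact h
    · exfalso
      have : B = 0 := pow_eq_zero_iff (two_ne_zero) |>.1 h
      rw [this] at f5
      simp at f5
  apply hb
  rw [hB, f6] at f5
  rw [← f5]
  ring

omit [CharP S 3] in
theorem pr_Phi_special (h2 : (2 : K) ≠ 0) (h3 : (3 : K) ≠ 0) (a b x : K) (h : a ^ 3 + b ^ 3 ≠ 0)
    (hx : 1 + x ^ 3 = 0) (T : S) :
    pr (Phi a b x) T = (1 - T) * (1 - (qc (hf a b x) : S) * T) := by
  obtain ⟨B, hB⟩ : ∃ B, B = b - a * x := ⟨_, rfl⟩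
  have hx0 : x ≠ 0 := by
    rintro rfl
    simp at hx
  have hB0 : B ≠ 0 := by
    intro h0
    apply h
    have h5 : b = a * x := by linear_combination h0 - hB
    rw [h5]
    linear_combination a ^ 3 * hx
  obtain ⟨c, hc⟩ : ∃ c, c = 3 * x ^ 2 * B := ⟨_, rfl⟩
  have hc0 : c ≠ 0 := by
    rw [hc]
    exact mul_ne_zero (mul_ne_zero h3 (pow_ne_zero 2 hx0)) hB0
  have h1 : Phi a b x = C c * (X ^ 2 + C (3 * x * B ^ 2 / c) * X + C ((B ^ 3 - 1) / c)) := by
    rw [Phi_eq, ← hB, hx, ← hc]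
    have e : ∀ y : K, C y = C c * C (y / c) := by
      intro y
      rw [← C_mul, mul_div_cancel₀ _ hc0]
    rw [e (3 * x * B ^ 2), e (B ^ 3 - 1), map_zero]
    ring
  have hpr : pr (Phi a b x) T = pr (X ^ 2 + C (3 * x * B ^ 2 / c) * X + C ((B ^ 3 - 1) / c)) T := by
    unfold pr
    rw [h1, fac_C_mul hc0 _ (quad_ne _ _)]
  have hD : hf a b x = ((3 * x * B ^ 2 / c) ^ 2 - 4 * ((B ^ 3 - 1) / c)) * (3 * x * B ^ 2) ^ 2 := by
    unfold hf
    rw [← hB, hx]
    have hx3 : x ^ 3 = -1 := by linear_combination hx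
    rw [hx3, hc]
    field_simp
    ring
  rw [hpr, pr_quad h2, hD, qc_mul_sq]
  exact mul_ne_zero (mul_ne_zero h3 hx0) (pow_ne_zero 2 hB0)

omit [Finite K] in
theorem kummer_ne (c : K) : (X ^ 3 - C c : K[X]) ≠ 0 := X_pow_sub_C_ne_zero (by norm_num) c

theorem pr_kummer (h2 : (2 : K) ≠ 0) (h3 : (3 : K) ≠ 0) {z : K} (hz : z ^ 2 + z + 1 = 0) {c : K}
    (hc : c ≠ 0) (T : S) : pr (X ^ 3 - C c : K[X]) T = (1 - T) ^ 3 := by
  have h1 : (X ^ 3 - C c : K[X]) = X ^ 3 + C 0 * X ^ 2 + C 0 * X + C (-c) := by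
    simp only [map_zero, map_neg]
    ring
  have hD : disc3 (0 : K) 0 (-c) = (3 * (2 * z + 1) * c) ^ 2 := by
    unfold disc3
    linear_combination -36 * c ^ 2 * hz
  have hz0 : 2 * z + 1 ≠ 0 := by
    intro h
    apply h3
    linear_combination -(2 * z + 1) * h + 4 * hz
  rw [h1, pr_cub h2, hD, qc_sq (mul_ne_zero (mul_ne_zero h3 hz0) hc)]
  · push_cast
    ring
  · rintro r ⟨e1, -, e3⟩
    have hr : r = 0 := by
      apply mul_left_cancel₀ h3
      linear_combination e1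
    rw [hr] at e3
    apply hc
    linear_combination -e3

omit [CharP S 3] in
theorem pr_cube (T : S) : pr (X ^ 3 - C 0 : K[X]) T = 1 - T := by
  have h1 : fac (X ^ 3 - C 0 : K[X]) = fac (X - C 0 : K[X]) := by
    ext R
    rw [mem_fac (kummer_ne 0), mem_fac (X_sub_C_ne_zero 0)]
    rw [map_zero, sub_zero, sub_zero]
    exact R.2.2.prime.dvd_pow_iff_dvd (by norm_num)
  unfold pr
  rw [h1]
  exact pr_lin 0 T

omit [CharP S 3] in
theorem pr_one (T : S) : pr (1 : K[X]) T = 1 := by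
  unfold pr
  have h1 : fac (1 : K[X]) = ∅ := by
    ext R
    rw [mem_fac one_ne_zero]
    simp only [Finset.notMem_empty, iff_false]
    exact fun h => R.2.2.not_isUnit (isUnit_of_dvd_one h)
  rw [h1, Finset.prod_empty]

end local_

end Pool.Agent.Y784.FC
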