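import Pool.Agent.Y784.FC.E

/-!
The pencil of lines of the Fermat cubic over a finite field: the Euler product modulo three.
-/

set_option autoImplicit false
set_option maxHeartbeats 1000000

open PowerSeries

namespace Pool.Agent.Y784.FC

open Pool.Agent.W313.Hyp Pool.Agent.W343.BSD Pool.Agent.Y711

/-- The Euler product modulo three of the quadratic twist attached to a point and the pencil of lines
through it. -/
theorem fermat_local {F : Type} [Field F] [Finite F] (h2 : (2 : F) ≠ 0) (h3 : Nat.card F % 3 = 1)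
    (α β : F) (h0 : (α ^ 3 + β ^ 3 - 1) * (α ^ 3 - 1) * (β ^ 3 - 1) * (α ^ 3 + β ^ 3) ≠ 0) :
    eulerProd (fun Q : MI F => Q.1.natDegree) (fun Q =>
      (1 - PowerSeries.C ((chi (hF α β) Q.1 : ℤ) : ZMod 3) * PowerSeries.X ^ Q.1.natDegree :
        PowerSeries (ZMod 3))) * (1 - PowerSeries.X) ^ 5 = 1 := by
  classical
  have hcard : 1 < Nat.card F := Finite.one_lt_card
  obtain ⟨z, hz⟩ := Pool.Agent.TH943.PT.exists_prim (F := F) (ℓ := 3) (by omega)
  have hz1 : z ≠ 1 := hz.ne_one (by norm_num)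
  have hz2 : z ^ 2 + z + 1 = 0 := by
    have h4 := hz.pow_eq_one
    have : (z - 1) * (z ^ 2 + z + 1) = 0 := by linear_combination h4
    exact (mul_eq_zero.1 this).resolve_left (sub_ne_zero.2 hz1)
  have h3' : (3 : F) ≠ 0 := by
    intro h
    have hz4 : (z - 1) ^ 2 = 0 := by linear_combination hz2 - z * h
    have := pow_eq_zero_iff (two_ne_zero) |>.1 hz4
    exact hz1 (sub_eq_zero.1 this)
  have c1 : α ^ 3 + β ^ 3 ≠ 1 := by
    intro h
    apply h0
    rw [h, sub_self]
    ring
  have c2 : α ^ 3 ≠ 1 := by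
    intro h
    apply h0
    rw [h]
    ring
  have c3 : β ^ 3 ≠ 1 := by
    intro h
    apply h0
    rw [h]
    ring
  have c4 : α ^ 3 + β ^ 3 ≠ 0 := by
    intro h
    apply h0
    rw [h]
    ring
  have hchar : CharP (PowerSeries (ZMod 3)) 3 :=
    charP_of_injective_ringHom (PowerSeries.C_injective (R := ZMod 3)) 3
  have h2P : ∀ P : MI F, (2 : RF P) ≠ 0 := fun P => by
    have := alg_ne (P := P) h2
    rwa [map_ofNat] at this
  have h3P : ∀ P : MI F, (3 : RF P) ≠ 0 := fun P => by
    have := alg_ne (P := P) h3'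
    rwa [map_ofNat] at this
  have hfin := fun n => finite_deg_le (F := F) n
  have hpos := fun P : MI F => MI.deg_pos P
  -- cubes
  have hroot : ∀ (P : MI F) (ε : F), P.1 ∣ Polynomial.X ^ 3 - Polynomial.C ε ↔
      AdjoinRoot.root P.1 ^ 3 = algebraMap F (RF P) ε := by
    intro P ε
    rw [← AdjoinRoot.mk_eq_zero, map_sub, map_pow, AdjoinRoot.mk_X, sub_eq_zero]
    rfl
  have hm1 : (-1 : F) ^ 3 = -1 := by norm_num
  have h11 : (1 : F) ^ 3 = 1 := by norm_num
  -- the factors
  set d : MI F → ℕ := fun P => P.1.natDegree with hd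
  set Z : MI F → PowerSeries (ZMod 3) := fun P => 1 - X ^ P.1.natDegree with hZ
  set Lf : MI F → PowerSeries (ZMod 3) := fun P =>
    1 - C ((chi (hF α β) P.1 : ℤ) : ZMod 3) * X ^ P.1.natDegree with hLf
  set g1 : MI F → PowerSeries (ZMod 3) := fun P =>
    ∏ R ∈ fac (G1 α β P), (1 - X ^ (P.1.natDegree * R.1.natDegree)) with hg1
  set g2 : MI F → PowerSeries (ZMod 3) := fun P =>
    ∏ R ∈ fac (G2 α P), (1 - X ^ (P.1.natDegree * R.1.natDegree)) with hg2
  set s1 : MI F → PowerSeries (ZMod 3) := fun P =>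
    if P.1 ∣ Polynomial.X ^ 3 - Polynomial.C (-1 : F) then 1 - X else 1 with hs1
  set s2 : MI F → PowerSeries (ZMod 3) := fun P => if P = mi α then (1 - X) ^ 3 else 1 with hs2
  set s3 : MI F → PowerSeries (ZMod 3) := fun P =>
    if P.1 ∣ Polynomial.X ^ 3 - Polynomial.C (1 : F) then (1 - X) ^ 2 else 1 with hs3
  have hg1' : ∀ P, g1 P = pr (G1 α β P) (X ^ P.1.natDegree : PowerSeries (ZMod 3)) := by
    intro P
    simp only [hg1, pr, pow_mul]
  have hg2' : ∀ P, g2 P = pr (G2 α P) (X ^ P.1.natDegree : PowerSeries (ZMod 3)) := by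
    intro P
    simp only [hg2, pr, pow_mul]
  have hchi : ∀ P : MI F, (C ((chi (hF α β) P.1 : ℤ) : ZMod 3) : PowerSeries (ZMod 3)) =
      ((qc (hf (algebraMap F (RF P) α) (algebraMap F (RF P) β) (AdjoinRoot.root P.1)) : ℤ) :
        PowerSeries (ZMod 3)) := by
    intro P
    rw [chi_eq, hf_eq, map_intCast]
  have b3 : ∀ P : MI F, (algebraMap F (RF P) β) ^ 3 ≠ 1 := by
    intro P h
    apply c3
    apply (algebraMap F (RF P)).injective
    rw [map_pow, h, map_one]
  have ab3 : ∀ P : MI F, (algebraMap F (RF P) α) ^ 3 + (algebraMap F (RF P) β) ^ 3 ≠ 0 := by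
    intro P
    rw [← map_pow, ← map_pow, ← map_add]
    exact alg_ne c4
  have id1 : ∀ P, g1 P * s1 P = Z P * Z P * Lf P := by
    intro P
    rw [hg1', hZ, hLf]
    simp only [hs1]
    rw [hchi]
    by_cases hP : P.1 ∣ Polynomial.X ^ 3 - Polynomial.C (-1 : F)
    · rw [if_pos hP]
      have hd1 := deg_cube hz2 hm1 P hP
      rw [hroot, map_neg, map_one] at hP
      have hx : 1 + AdjoinRoot.root P.1 ^ 3 = 0 := by rw [hP]; ring
      unfold G1
      rw [pr_Phi_special (h2P P) (h3P P) _ _ _ (ab3 P) hx, hd1, pow_one]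
      ring
    · rw [if_neg hP]
      rw [hroot, map_neg, map_one] at hP
      have hx : 1 + AdjoinRoot.root P.1 ^ 3 ≠ 0 := by
        intro h
        apply hP
        linear_combination h
      unfold G1
      rw [pr_Phi (h2P P) (h3P P) _ _ _ (b3 P) hx]
      ring
  have id2 : ∀ P, g2 P * (s2 P * s3 P) = Z P * Z P * Z P := by
    intro P
    rw [hg2', hZ]
    simp only [hs2, hs3]
    unfold G2
    by_cases hPα : P = mi α
    · have hd1 : P.1.natDegree = 1 := by rw [hPα]; exact Polynomial.natDegree_X_sub_C _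
      have hn : ¬ P.1 ∣ Polynomial.X ^ 3 - Polynomial.C (1 : F) := by
        rw [hPα]
        intro h
        have h4 : (Polynomial.X ^ 3 - Polynomial.C (1 : F)).IsRoot α := Polynomial.dvd_iff_isRoot.1 h
        apply c2
        have h5 : α ^ 3 - 1 = 0 := by simpa using h4
        linear_combination h5
      rw [if_pos hPα, if_pos hPα, if_neg hn, pr_one, hd1, pow_one]
      ring
    · rw [if_neg hPα, if_neg hPα]
      by_cases hP : P.1 ∣ Polynomial.X ^ 3 - Polynomial.C (1 : F)
      · rw [if_pos hP]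
        have hd1 := deg_cube hz2 h11 P hP
        rw [hroot, map_one] at hP
        rw [hP, sub_self, pr_cube, hd1, pow_one]
        ring
      · rw [if_neg hP]
        rw [hroot, map_one] at hP
        have hc : 1 - AdjoinRoot.root P.1 ^ 3 ≠ 0 := by
          intro h
          apply hP
          linear_combination -h
        have hzP : (algebraMap F (RF P) z) ^ 2 + algebraMap F (RF P) z + 1 = 0 := by
          have := congrArg (algebraMap F (RF P)) hz2
          rwa [map_add, map_add, map_pow, map_one, map_zero] at this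
        rw [pr_kummer (h2P P) (h3P P) hzP hc]
        ring
  -- divisibility conditions
  have e0 : ∀ (n : ℕ) (f : PowerSeries (ZMod 3)), (X : PowerSeries (ZMod 3)) ^ n ∣ 1 - X ^ n * f - 1 := by
    intro n f
    rw [sub_right_comm, sub_self, zero_sub]
    exact (dvd_neg).2 (dvd_mul_right _ _)
  have dZ : ∀ P : MI F, (X : PowerSeries (ZMod 3)) ^ d P ∣ Z P - 1 := by
    intro P
    have := e0 P.1.natDegree 1
    rwa [mul_one] at this
  have dL : ∀ P : MI F, (X : PowerSeries (ZMod 3)) ^ d P ∣ Lf P - 1 := by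
    intro P
    have := e0 P.1.natDegree (C ((chi (hF α β) P.1 : ℤ) : ZMod 3))
    rwa [mul_comm] at this
  have dp : ∀ (G : ∀ P : MI F, Polynomial (RF P)) (P : MI F), (X : PowerSeries (ZMod 3)) ^ d P ∣
      ∏ R ∈ fac (G P), (1 - X ^ (P.1.natDegree * R.1.natDegree)) - 1 := by
    intro G P
    have h := prod_congr_mod (fac (G P))
      (fun R => (1 - X ^ (P.1.natDegree * R.1.natDegree) : PowerSeries (ZMod 3))) (fun _ => 1)
      P.1.natDegree (fun R _ => by
        have h5 : (X : PowerSeries (ZMod 3)) ^ (P.1.natDegree * R.1.natDegree) =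
            X ^ P.1.natDegree * X ^ (P.1.natDegree * R.1.natDegree - P.1.natDegree) := by
          rw [← pow_add]
          congr 1
          have := Nat.le_mul_of_pos_right P.1.natDegree (MI.deg_pos R)
          omega
        rw [h5]
        exact e0 _ _)
    rwa [Finset.prod_const_one] at h
  have dlin : ∀ (P : MI F) (k : ℕ), P.1.natDegree = 1 →
      (X : PowerSeries (ZMod 3)) ^ P.1.natDegree ∣ (1 - X) ^ k - 1 := by
    intro P k h
    rw [h, pow_one]
    have h5 : (1 : PowerSeries (ZMod 3)) - X - 1 ∣ (1 - X) ^ k - 1 ^ k := sub_dvd_pow_sub_pow _ _ k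
    rw [one_pow] at h5
    refine dvd_trans ?_ h5
    rw [sub_right_comm, sub_self, zero_sub]
    exact (dvd_neg).2 dvd_rfl
  have ds1 : ∀ P : MI F, (X : PowerSeries (ZMod 3)) ^ d P ∣ s1 P - 1 := by
    intro P
    simp only [hs1]
    split_ifs with h
    · have := dlin P 1 (deg_cube hz2 hm1 P h)
      rwa [pow_one] at this
    · rw [sub_self]; exact dvd_zero _
  have ds2 : ∀ P : MI F, (X : PowerSeries (ZMod 3)) ^ d P ∣ s2 P - 1 := by
    intro P
    simp only [hs2]
    split_ifs with h
    · exact dlin P 3 (by rw [h]; exact Polynomial.natDegree_X_sub_C _)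
    · rw [sub_self]; exact dvd_zero _
  have ds3 : ∀ P : MI F, (X : PowerSeries (ZMod 3)) ^ d P ∣ s3 P - 1 := by
    intro P
    simp only [hs3]
    split_ifs with h
    · exact dlin P 2 (deg_cube hz2 h11 P h)
    · rw [sub_self]; exact dvd_zero _
  -- Euler products
  have hEZ : eulerProd d Z = 1 - X := by
    have := euler_irr (F := F) (ZMod 3)
    have hq : ((Nat.card F : ℕ) : ZMod 3) = 1 := by
      have h5 : ((Nat.card F : ℕ) : ZMod 3) = ((Nat.card F % 3 : ℕ) : ZMod 3) := by
        rw [ZMod.natCast_mod]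
      rw [h5, h3, Nat.cast_one]
    rw [hq, map_one, one_mul] at this
    exact this
  have hE1 : eulerProd d g1 = EP (G1 α β) (ZMod 3) := rfl
  have hE2 : eulerProd d g2 = EP (G2 α) (ZMod 3) := rfl
  have hS1 : eulerProd d s1 = (1 - X) ^ 3 := by
    rw [eulerProd_of_finset hfin ds1 (fac (Polynomial.X ^ 3 - Polynomial.C (-1 : F))) (fun P hP => by
      rw [mem_fac (kummer_ne _)] at hP
      simp only [hs1]
      rw [if_neg hP])]
    rw [Finset.prod_congr rfl (g := fun _ => (1 - X : PowerSeries (ZMod 3))) (fun P hP => by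
      rw [mem_fac (kummer_ne _)] at hP
      simp only [hs1]
      rw [if_pos hP]), Finset.prod_const, card_cube h3' hz2 hm1 (by simp)]
  have hS2 : eulerProd d s2 = (1 - X) ^ 3 := by
    rw [eulerProd_of_finset hfin ds2 {mi α} (fun P hP => by
      simp only [hs2]
      rw [if_neg (by simpa using hP)])]
    rw [Finset.prod_singleton]
    simp [hs2]
  have hS3 : eulerProd d s3 = ((1 - X) ^ 2) ^ 3 := by
    rw [eulerProd_of_finset hfin ds3 (fac (Polynomial.X ^ 3 - Polynomial.C (1 : F))) (fun P hP => by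
      rw [mem_fac (kummer_ne _)] at hP
      simp only [hs3]
      rw [if_neg hP])]
    rw [Finset.prod_congr rfl (g := fun _ => ((1 - X) ^ 2 : PowerSeries (ZMod 3))) (fun P hP => by
      rw [mem_fac (kummer_ne _)] at hP
      simp only [hs3]
      rw [if_pos hP]), Finset.prod_const, card_cube h3' hz2 h11 (by simp)]
  have H1 : eulerProd d g1 * (1 - X) ^ 3 = (1 - X) * (1 - X) * eulerProd d Lf := by
    have e1 := eulerProd_mul hfin (f := g1) (g := s1) (dp _) ds1
    have e2 := eulerProd_mul hfin (f := Z) (g := Z) dZ dZ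
    have e3 := eulerProd_mul hfin (f := fun P => Z P * Z P) (g := Lf)
      (fun P => one_mod_mul (dZ P) (dZ P)) dL
    have e4 : (fun P => g1 P * s1 P) = fun P => Z P * Z P * Lf P := funext id1
    rw [e4] at e1
    rw [hS1] at e1
    rw [← e1, ← hEZ, ← e2, ← e3]
  have H2 : eulerProd d g2 * ((1 - X) ^ 3 * ((1 - X) ^ 2) ^ 3) = (1 - X) * (1 - X) * (1 - X) := by
    have e0 := eulerProd_mul hfin (f := s2) (g := s3) ds2 ds3
    have e1 := eulerProd_mul hfin (f := g2) (g := fun P => s2 P * s3 P) (dp _)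
      (fun P => one_mod_mul (ds2 P) (ds3 P))
    have e2 := eulerProd_mul hfin (f := Z) (g := Z) dZ dZ
    have e3 := eulerProd_mul hfin (f := fun P => Z P * Z P) (g := Z)
      (fun P => one_mod_mul (dZ P) (dZ P)) dZ
    have e4 : (fun P => g2 P * (s2 P * s3 P)) = fun P => Z P * Z P * Z P := funext id2
    rw [e4] at e1
    rw [← hS2, ← hS3, ← e0, ← e1, ← hEZ, ← e2, ← e3]
  have H3 : eulerProd d g1 = eulerProd d g2 := by
    rw [hE1, hE2]
    exact EP_G1_eq_G2 h3' α β c1 c4 (ZMod 3)
  have hne : (1 - X : PowerSeries (ZMod 3)) ≠ 0 := by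
    intro h
    have := congrArg (PowerSeries.constantCoeff (R := ZMod 3)) h
    simp at this
  show eulerProd d Lf * (1 - X) ^ 5 = 1
  apply mul_left_cancel₀ (pow_ne_zero 3 hne)
  rw [H3] at H1
  linear_combination -(1 - X) ^ 6 * H1 + H2

end Pool.Agent.Y784.FC
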